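import Pool.Agent.Lib.MP_204515_an.Complete

open scoped Matrix

namespace Pool.Agent.Results.MP_204515_an.UnitalAmplification

open Pool.Agent.Lib.MP_204515_an

/-- The principal submatrix of `a ∈ M_n(A)` on the set `K` of indices, an element of the
C*-algebra of `K × K` matrices over `A`. -/
def principal {A : Type*} {n : ℕ} (a : CStarMatrix (Fin n) (Fin n) A) (K : Finset (Fin n)) :
    CStarMatrix K K A :=
  CStarMatrix.ofMatrix fun i j => a i j

/-- `Γ ∈ G(A)`: every matrix `a` over `A` all of whose principal submatrices on cliques of `Γ` are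
positive agrees on the diagonal and on the edges of `Γ` with some positive matrix `y`. -/
def InG (A : Type*) [CStarAlgebra A] [PartialOrder A] [StarOrderedRing A] {n : ℕ}
    (Γ : SimpleGraph (Fin n)) : Prop :=
  ∀ a : CStarMatrix (Fin n) (Fin n) A,
    (∀ K : Finset (Fin n), Γ.IsClique (K : Set (Fin n)) → 0 ≤ principal a K) →
    ∃ y : CStarMatrix (Fin n) (Fin n) A, 0 ≤ y ∧ ∀ i j, (i = j ∨ Γ.Adj i j) → y i j = a i j

section

variable {A : Type*} [CStarAlgebra A] [PartialOrder A] [StarOrderedRing A] {n m : ℕ}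

lemma posOn_of_principal {a : CStarMatrix (Fin n) (Fin n) A} {K : Finset (Fin n)}
    (h : 0 ≤ principal a K) : PosOn K (fun i j => a i j) := by
  obtain ⟨P, hP⟩ := (gen_nonneg_iff _).1 h
  refine posOn_of_fintype (κ := K) (fun k j => if hj : j ∈ K then P k ⟨j, hj⟩ else 0)
    fun i hi j hj => ?_
  have := congrFun (congrFun hP ⟨i, hi⟩) ⟨j, hj⟩
  simp only [hi, hj, dif_pos]
  rw [CStarMatrix.mul_apply] at this
  exact this

lemma principal_nonneg {a : CStarMatrix (Fin n) (Fin n) A} {K : Finset (Fin n)}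
    (h : PosOn K (fun i j => a i j)) : 0 ≤ principal a K := by
  obtain ⟨N, T, hT⟩ := h
  have h1 := mpos_gram (Matrix.of fun (k : Fin N) (j : K) => T k j)
  rw [← nonneg_iff] at h1
  convert h1 using 1
  ext i j
  rw [CStarMatrix.ofMatrix_apply, Matrix.mul_apply]
  exact hT i i.2 j j.2

lemma nonneg_of_posOn {a : CStarMatrix (Fin n) (Fin n) A}
    (h : PosOn Finset.univ (fun i j => a i j)) : 0 ≤ a := by
  obtain ⟨N, T, hT⟩ := h
  have h1 := mpos_gram (Matrix.of fun (k : Fin N) (j : Fin n) => T k j)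
  rw [← nonneg_iff] at h1
  convert h1 using 1
  ext i j
  rw [CStarMatrix.ofMatrix_apply, Matrix.mul_apply]
  exact hT i (Finset.mem_univ _) j (Finset.mem_univ _)

lemma inG_iff_kg (Γ : SimpleGraph (Fin n)) : InG A Γ ↔ KG A Γ := by
  constructor
  · intro h M hM
    obtain ⟨y, hy1, hy2⟩ := h (CStarMatrix.ofMatrix M) fun K hK => principal_nonneg (hM K hK)
    refine ⟨fun i j => y i j, ?_, hy2⟩
    obtain ⟨P, hP⟩ := (gen_nonneg_iff _).1 hy1
    refine posOn_of_fintype (κ := Fin n) (fun k j => P k j) fun i _ j _ => ?_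
    have := congrFun (congrFun hP i) j
    rw [CStarMatrix.mul_apply] at this
    exact this
  · intro h a ha
    obtain ⟨Y, hY1, hY2⟩ := h (fun i j => a i j) fun K hK => posOn_of_principal (ha K hK)
    exact ⟨CStarMatrix.ofMatrix Y, nonneg_of_posOn hY1, hY2⟩

/-- the flattening of a matrix over `M_m(A)` -/
def flat (a : CStarMatrix (Fin n) (Fin n) (CStarMatrix (Fin m) (Fin m) A)) :
    Fin n × Fin m → Fin n × Fin m → A := fun x y => a x.1 y.1 x.2 y.2

omit [PartialOrder A] [StarOrderedRing A] in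
lemma sum_apply' {κ : Type*} (s : Finset κ) (F : κ → CStarMatrix (Fin m) (Fin m) A) (p q : Fin m) :
    (∑ k ∈ s, F k) p q = ∑ k ∈ s, F k p q := by
  classical
  induction s using Finset.induction_on with
  | empty => simp
  | insert a s ha ih => rw [Finset.sum_insert ha, Finset.sum_insert ha, CStarMatrix.add_apply, ih]

/-- blow-up direction -/
lemma inG_amp_of_kg {Γ : SimpleGraph (Fin n)} (h : KG A (blowUp Γ (Fin m))) :
    InG (CStarMatrix (Fin m) (Fin m) A) Γ := by
  intro a ha
  obtain ⟨Y, ⟨N, T, hT⟩, hY⟩ := h (flat a) (by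
    intro K hK
    have hcl : Γ.IsClique ((K.image Prod.fst : Finset (Fin n)) : Set (Fin n)) := by
      intro x hx y hy hxy
      rw [Finset.mem_coe, Finset.mem_image] at hx hy
      obtain ⟨x', hx', rfl⟩ := hx
      obtain ⟨y', hy', rfl⟩ := hy
      have := hK hx' hy' (fun h' => hxy (by rw [h']))
      exact this.2.resolve_left hxy
    obtain ⟨P, hP⟩ := (gen_nonneg_iff _).1 (ha _ hcl)
    refine posOn_of_fintype (κ := Prod ↥(K.image Prod.fst) (Fin m))
      (fun k x => if hx : x.1 ∈ K.image Prod.fst then P k.1 ⟨x.1, hx⟩ k.2 x.2 else 0) ?_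
    rintro ⟨i, p⟩ hi ⟨j, q⟩ hj
    have hi' : i ∈ K.image Prod.fst := Finset.mem_image.2 ⟨_, hi, rfl⟩
    have hj' : j ∈ K.image Prod.fst := Finset.mem_image.2 ⟨_, hj, rfl⟩
    simp only [hi', hj', dif_pos]
    have h1 : a i j = ∑ k, star (P k ⟨i, hi'⟩) * P k ⟨j, hj'⟩ := by
      have := congrFun (congrFun hP ⟨i, hi'⟩) ⟨j, hj'⟩
      rw [CStarMatrix.mul_apply] at this
      exact this
    change a i j p q = _
    rw [h1, sum_apply', Fintype.sum_prod_type]
    refine Finset.sum_congr rfl fun k _ => ?_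
    rw [CStarMatrix.mul_apply]
    rfl)
  -- a square Gram matrix over `A`
  obtain ⟨P, hP⟩ := mpos_gram (Matrix.of fun (k : Fin N) (x : Fin n × Fin m) => T k x)
  refine ⟨CStarMatrix.ofMatrix fun i j => CStarMatrix.ofMatrix fun p q => Y (i, p) (j, q), ?_, ?_⟩
  · rw [gen_nonneg_iff]
    refine ⟨CStarMatrix.ofMatrix fun i j => CStarMatrix.ofMatrix fun p q => P (i, p) (j, q), ?_⟩
    refine CStarMatrix.ext fun i j => ?_
    refine CStarMatrix.ext fun p q => ?_
    rw [CStarMatrix.mul_apply, sum_apply']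
    change Y (i, p) (j, q) = _
    rw [hT _ (Finset.mem_univ _) _ (Finset.mem_univ _)]
    have h1 := congrFun (congrFun hP (i, p)) (j, q)
    rw [Matrix.mul_apply, Matrix.mul_apply, Fintype.sum_prod_type] at h1
    refine Eq.trans h1 ?_
    refine Finset.sum_congr rfl fun k _ => ?_
    rw [CStarMatrix.mul_apply]
    rfl
  · intro i j hij
    refine CStarMatrix.ext fun p q => ?_
    change Y (i, p) (j, q) = a i j p q
    rw [hY]
    · rfl
    · by_cases h1 : ((i, p) : Fin n × Fin m) = (j, q)
      · exact Or.inl h1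
      · exact Or.inr ⟨h1, hij⟩

/-- corner direction -/
lemma kg_of_inG_amp (hm : 0 < m) {Γ : SimpleGraph (Fin n)}
    (h : InG (CStarMatrix (Fin m) (Fin m) A) Γ) : KG A Γ := by
  intro M hM
  set p0 : Fin m := ⟨0, hm⟩ with hp0
  set a : CStarMatrix (Fin n) (Fin n) (CStarMatrix (Fin m) (Fin m) A) :=
    CStarMatrix.ofMatrix fun i j => CStarMatrix.ofMatrix fun p q =>
      if p = p0 ∧ q = p0 then M i j else 0 with ha
  obtain ⟨y, hy1, hy2⟩ := h a (by
    intro K hK
    obtain ⟨N, T, hT⟩ := hM K hK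
    obtain ⟨P, hP⟩ := mpos_gram (Matrix.of fun (k : Fin N) (x : K) => T k x)
    rw [gen_nonneg_iff]
    refine ⟨CStarMatrix.ofMatrix fun i j => CStarMatrix.ofMatrix fun p q =>
      if p = p0 ∧ q = p0 then P i j else 0, ?_⟩
    refine CStarMatrix.ext fun i j => ?_
    refine CStarMatrix.ext fun p q => ?_
    rw [CStarMatrix.mul_apply, sum_apply']
    change (if p = p0 ∧ q = p0 then M i j else 0) = _
    have h1 : M i j = ∑ k, star (P k i) * P k j := by
      have := congrFun (congrFun hP i) j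
      rw [Matrix.mul_apply, Matrix.mul_apply] at this
      rw [hT i i.2 j j.2]
      exact this
    by_cases hpq : p = p0 ∧ q = p0
    · rw [if_pos hpq, h1]
      refine Finset.sum_congr rfl fun k _ => ?_
      rw [CStarMatrix.mul_apply, Finset.sum_eq_single p0]
      · change _ = star (if p0 = p0 ∧ p = p0 then P k i else 0) *
          (if p0 = p0 ∧ q = p0 then P k j else 0)
        simp [hpq.1, hpq.2]
      · intro r _ hr
        change star (if r = p0 ∧ p = p0 then P k i else 0) *
          (if r = p0 ∧ q = p0 then P k j else 0) = 0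
        simp [hr]
      · simp
    · rw [if_neg hpq]
      symm
      refine Finset.sum_eq_zero fun k _ => ?_
      rw [CStarMatrix.mul_apply]
      refine Finset.sum_eq_zero fun r _ => ?_
      change star (if r = p0 ∧ p = p0 then P k i else 0) *
        (if r = p0 ∧ q = p0 then P k j else 0) = 0
      by_cases hp : p = p0
      · have hq : q ≠ p0 := fun hq => hpq ⟨hp, hq⟩
        simp [hq]
      · simp [hp])
  refine ⟨fun i j => y i j p0 p0, ?_, fun i j hij => ?_⟩
  · obtain ⟨P, hP⟩ := (gen_nonneg_iff _).1 hy1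
    refine posOn_of_fintype (κ := Fin n × Fin m) (fun k x => P k.1 x k.2 p0) fun i _ j _ => ?_
    have h1 : y i j = ∑ k, star (P k i) * P k j := by
      have := congrFun (congrFun hP i) j
      rw [CStarMatrix.mul_apply] at this
      exact this
    rw [h1, sum_apply', Fintype.sum_prod_type]
    refine Finset.sum_congr rfl fun k _ => ?_
    rw [CStarMatrix.mul_apply]
    rfl
  · simp only [hy2 i j hij]
    change (if p0 = p0 ∧ p0 = p0 then M i j else 0) = M i j
    simp

end

/-- For every unital C*-algebra `A` and every `m ≥ 1`, `G(M_m(A)) = G(A)`. -/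
theorem result (A : Type*) [CStarAlgebra A] [PartialOrder A] [StarOrderedRing A] (m : ℕ)
    (hm : 0 < m) (n : ℕ) (Γ : SimpleGraph (Fin n)) :
    InG (CStarMatrix (Fin m) (Fin m) A) Γ ↔ InG A Γ := by
  constructor
  · intro h
    exact (inG_iff_kg Γ).2 (kg_of_inG_amp hm h)
  · intro h
    rw [inG_iff_kg] at h
    apply inG_amp_of_kg
    by_cases hc : ∀ i j k, Γ.Adj i j → Γ.Adj j k → i ≠ k → Γ.Adj i k
    · apply kg_of_cluster
      rintro ⟨i, p⟩ ⟨j, q⟩ ⟨k, r⟩ ⟨-, h1⟩ ⟨-, h2⟩ hne
      refine ⟨hne, ?_⟩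
      simp only at h1 h2 ⊢
      by_cases hik : i = k
      · exact Or.inl hik
      · right
        rcases h1 with rfl | h1
        · exact h2.resolve_left hik
        · rcases h2 with rfl | h2
          · exact h1
          · exact hc i j k h1 h2 hik
    · push Not at hc
      obtain ⟨i, j, k, hij, hjk, hik, hnik⟩ := hc
      have hP : P3 A := p3_of_kg h hij hjk hik hnik
      rcases subsingleton_or_nontrivial A with hs | hs
      · intro M hM
        refine ⟨M, ⟨0, fun _ _ => 0, fun i _ j _ => Subsingleton.elim _ _⟩, fun _ _ _ => rfl⟩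
      · exact kg_of_elim hP (elim_blowUp (elim_of_noObs (noObs_of_kg h)) (Fin m))

end Pool.Agent.Results.MP_204515_an.UnitalAmplification
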